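import Mathlib
import Pool.Agent.Lib.QuadThree.Setup
import Pool.Agent.Lib.QuadThree.Asym

/-!
A lower bound sieve for systems of linear forms in one variable: at most `D` linear forms
`c i * V + m i` with `0 < |c i| ≤ D` are simultaneously rough (up to bounded powers of primes
`≤ D`) for many `V` in any interval of length `N / κ`.
-/

set_option autoImplicit false

namespace Pool.Agent.Lib.RoughForms

open Finset Pool.Agent.Lib.QuadParity Pool.Agent.Lib.QuadThree

/-- pigeonhole: an argument avoiding finitely many residues -/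
theorem local_choice {ι : Type} (I : Finset ι) (K : ℕ) (hK : I.card ≤ K) (c m : ι → ℤ) (B : ℤ)
    (hc : ∀ i ∈ I, c i ≠ 0 ∧ |c i| ≤ B) (M : ℤ) (hM : B * K < M) :
    ∃ v : ℕ, v ≤ K ∧ ∀ i ∈ I, ¬ M ∣ c i * v + m i := by
  classical
  by_contra hcon
  push Not at hcon
  have h1 : ∀ v : ℕ, ∃ i : ι, v ≤ K → i ∈ I ∧ M ∣ c i * v + m i := by
    intro v
    by_cases hv : v ≤ K
    · obtain ⟨i, hi, hd⟩ := hcon v hv
      exact ⟨i, fun _ => ⟨hi, hd⟩⟩
    · obtain ⟨i, _, _⟩ := hcon 0 (Nat.zero_le _)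
      exact ⟨i, fun h => absurd h hv⟩
  choose φ hφ using h1
  obtain ⟨v, hv, w, hw, hne, heq⟩ := Finset.exists_ne_map_eq_of_card_lt_of_maps_to
    (s := range (K + 1)) (t := I) (f := φ) (by rw [card_range]; omega) (by
      intro v hv
      exact (hφ v (by have := mem_range.1 hv; omega)).1)
  rw [mem_range] at hv hw
  obtain ⟨hi, hd⟩ := hφ v (by omega)
  obtain ⟨_, hd'⟩ := hφ w (by omega)
  rw [← heq] at hd'
  have h2 := dvd_sub hd hd'
  have h3 : c (φ v) * v + m (φ v) - (c (φ v) * w + m (φ v)) = c (φ v) * ((v : ℤ) - w) := by ring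
  rw [h3] at h2
  have h4 : c (φ v) * ((v : ℤ) - w) ≠ 0 := by
    apply mul_ne_zero (hc _ hi).1
    intro h
    apply hne
    omega
  have h5 := Int.le_of_dvd (abs_pos.2 h4) ((dvd_abs _ _).2 h2)
  rw [abs_mul] at h5
  have h6 : |(v : ℤ) - w| ≤ K := by rw [abs_le]; constructor <;> omega
  have h7 := (hc _ hi).2
  have h8 : |c (φ v)| * |(v : ℤ) - w| ≤ B * K := by
    apply mul_le_mul h7 h6 (abs_nonneg _)
    exact (abs_nonneg _).trans h7
  omega

/-- modulus for the small primes -/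
def GG (D : ℕ) : ℕ := ∏ p ∈ (Icc 1 D).filter Nat.Prime, p ^ (2 * D)

theorem GG_pos (D : ℕ) : 0 < GG D := by
  unfold GG
  apply Finset.prod_pos
  intro p hp
  exact pow_pos (mem_filter.1 hp).2.pos _

theorem pow_dvd_GG (D p : ℕ) (hp : p.Prime) (h : p ≤ D) : p ^ (2 * D) ∣ GG D := by
  unfold GG
  exact Finset.dvd_prod_of_mem (fun p => p ^ (2 * D))
    (mem_filter.2 ⟨mem_Icc.2 ⟨hp.one_le, h⟩, hp⟩)

theorem not_dvd_GG (D p : ℕ) (hp : p.Prime) (hpD : D < p) : ¬ p ∣ GG D := by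
  intro h
  unfold GG at h
  obtain ⟨r, hr, hpr⟩ := (hp.prime.dvd_finsetProd_iff _).1 h
  rw [mem_filter, mem_Icc] at hr
  have h1 := hp.dvd_of_dvd_pow hpr
  have h2 := (Nat.prime_dvd_prime_iff_eq hp hr.2).1 h1
  omega

theorem one_root (q : ℕ) (hq : q.Prime) (A B : ℤ) (hB : ¬ (q : ℤ) ∣ B) :
    ((range q).filter (fun s : ℕ => (q : ℤ) ∣ A + B * s)).card ≤ 1 := by
  rw [Finset.card_le_one]
  intro s hs t ht
  rw [mem_filter, mem_range] at hs ht
  have h1 := dvd_sub hs.2 ht.2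
  have h2 : A + B * s - (A + B * t) = B * ((s : ℤ) - t) := by ring
  rw [h2] at h1
  have hqz : Prime (q : ℤ) := Nat.prime_iff_prime_int.1 hq
  rcases hqz.dvd_or_dvd h1 with h | h
  · exact absurd h hB
  · obtain ⟨c, hc⟩ := h
    have h3 : c = 0 := by
      by_contra hne
      have h4 : 1 ≤ |c| := Int.one_le_abs hne
      have h5 : |(s : ℤ) - t| = q * |c| := by rw [hc, abs_mul, Nat.abs_cast]
      have h6 : |(s : ℤ) - t| < q := by rw [abs_lt]; constructor <;> omega
      have h7 : (q : ℤ) * 1 ≤ q * |c| := by gcongr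
      omega
    rw [h3] at hc
    omega

section Gen

variable {ι : Type} (D : ℕ) (I : Finset ι) (c m : ι → ℤ)

/-- the forms are not divisible by high powers of small primes -/
def SmallG (V : ℤ) : Prop := ∀ p : ℕ, p.Prime → p ≤ D → ∀ i ∈ I,
  ¬ (p : ℤ) ^ (2 * D) ∣ c i * V + m i

/-- the forms are free of the primes in `(D, z]` -/
def MedG (z : ℕ) (V : ℤ) : Prop := ∀ q : ℕ, q.Prime → D < q → q ≤ z → ∀ i ∈ I,
  ¬ (q : ℤ) ∣ c i * V + m i

theorem SmallG.congr {D : ℕ} {I : Finset ι} {c m : ι → ℤ} {V V' : ℤ} (h : SmallG D I c m V)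
    (hd : (GG D : ℤ) ∣ V' - V) : SmallG D I c m V' := by
  intro p hp hp1 i hi hdv
  apply h p hp hp1 i hi
  have h1 : (p : ℤ) ^ (2 * D) ∣ V' - V :=
    dvd_trans (by exact_mod_cast pow_dvd_GG D p hp hp1) hd
  have h2 := dvd_sub hdv (Dvd.dvd.mul_left h1 (c i))
  have h3 : c i * V' + m i - c i * (V' - V) = c i * V + m i := by ring
  rwa [h3] at h2

theorem exists_smallG (hD : 0 < D) (hI : I.card ≤ D) (hc : ∀ i ∈ I, c i ≠ 0 ∧ |c i| ≤ D) :
    ∃ V : ℤ, SmallG D I c m V := by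
  classical
  have h1 : ∀ p : ℕ, ∃ r : ℤ, p.Prime → ∀ i ∈ I, ¬ (p : ℤ) ^ (2 * D) ∣ c i * r + m i := by
    intro p
    by_cases hp : p.Prime
    · obtain ⟨v, _, hv⟩ := local_choice I D hI c m D hc
        ((p : ℤ) ^ (2 * D)) (by
          have h2 : (2 : ℤ) ^ (2 * D) ≤ (p : ℤ) ^ (2 * D) := by
            apply pow_le_pow_left₀ (by norm_num)
            exact_mod_cast hp.two_le
          have h3 : D < 2 ^ D := Nat.lt_two_pow_self
          have h4 : (D : ℤ) < 2 ^ D := by exact_mod_cast h3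
          have h5 : (2 : ℤ) ^ (2 * D) = 2 ^ D * 2 ^ D := by rw [two_mul, pow_add]
          have h6 : (0 : ℤ) < D := by exact_mod_cast hD
          nlinarith)
      exact ⟨v, fun _ => hv⟩
    · exact ⟨0, fun h => absurd h hp⟩
  choose r hr using h1
  obtain ⟨x, hx⟩ := crt_int ((Icc 1 D).filter Nat.Prime) (fun p => (p : ℤ) ^ (2 * D)) r (by
    intro p hp q hq hne
    have h1 : IsCoprime (p : ℤ) (q : ℤ) := by
      rw [Nat.isCoprime_iff_coprime]
      exact (Nat.coprime_primes (mem_filter.1 hp).2 (mem_filter.1 hq).2).2 hne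
    exact h1.pow)
  refine ⟨x, ?_⟩
  intro p hp hp1 i hi hdv
  apply hr p hp i hi
  have h2 := hx p (mem_filter.2 ⟨mem_Icc.2 ⟨hp.one_le, hp1⟩, hp⟩)
  have h3 := dvd_sub hdv (Dvd.dvd.mul_left h2 (c i))
  have h4 : c i * x + m i - c i * (x - r p) = c i * r p + m i := by ring
  rwa [h4] at h3

/-- the family of conditions to be avoided, for `V = V₁ + G s` -/
def badG (V1 : ℤ) (q s : ℕ) : Prop := ∃ i ∈ I, (q : ℤ) ∣ c i * (V1 + GG D * s) + m i

theorem per_badG (V1 : ℤ) : Per (badG D I c m V1) := by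
  intro q s
  have key : ∀ i : ι, (q : ℤ) ∣ c i * (V1 + GG D * s) + m i ↔
      (q : ℤ) ∣ c i * (V1 + GG D * (s % q : ℕ)) + m i := by
    intro i
    have h : ((s : ℕ) : ℤ) = q * ((s / q : ℕ) : ℤ) + ((s % q : ℕ) : ℤ) := by
      exact_mod_cast (Nat.div_add_mod s q).symm
    have h1 : (q : ℤ) ∣ c i * (V1 + GG D * s) + m i -
        (c i * (V1 + GG D * (s % q : ℕ)) + m i) := by
      rw [h]
      exact ⟨c i * GG D * ((s / q : ℕ) : ℤ), by push_cast; ring⟩
    constructor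
    · intro h2
      have := dvd_sub h2 h1
      rwa [sub_sub_cancel] at this
    · intro h2
      have := dvd_add h1 h2
      rwa [sub_add_cancel] at this
  unfold badG
  constructor
  · rintro ⟨i, hi, hd⟩
    exact ⟨i, hi, (key i).1 hd⟩
  · rintro ⟨i, hi, hd⟩
    exact ⟨i, hi, (key i).2 hd⟩

theorem nb_badG (hI : I.card ≤ D) (hc : ∀ i ∈ I, c i ≠ 0 ∧ |c i| ≤ D) (V1 : ℤ) (q : ℕ)
    (hq : q.Prime) (hqD : D < q) : nb (badG D I c m V1) q ≤ D := by
  classical
  have hqz : Prime (q : ℤ) := Nat.prime_iff_prime_int.1 hq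
  have hB : ∀ i ∈ I, ¬ (q : ℤ) ∣ c i * GG D := by
    intro i hi h
    rcases hqz.dvd_or_dvd h with h | h
    · have h1 := Int.le_of_dvd (abs_pos.2 (hc i hi).1) ((dvd_abs _ _).2 h)
      have h2 := (hc i hi).2
      omega
    · exact not_dvd_GG D q hq hqD (by exact_mod_cast h)
  unfold nb
  have hsub : (range q).filter (fun s => badG D I c m V1 q s) ⊆
      I.biUnion (fun i => (range q).filter
        (fun s : ℕ => (q : ℤ) ∣ (c i * V1 + m i) + (c i * GG D) * s)) := by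
    intro s hs
    have hs0 := mem_filter.1 hs
    obtain ⟨i, hi, hd⟩ := hs0.2
    refine Finset.mem_biUnion.2 ⟨i, hi, mem_filter.2 ⟨hs0.1, ?_⟩⟩
    have e : (c i * V1 + m i) + (c i * GG D) * s = c i * (V1 + GG D * s) + m i := by ring
    rw [e]; exact hd
  refine (Finset.card_le_card hsub).trans ?_
  refine Finset.card_biUnion_le.trans ?_
  have h1 := Finset.sum_le_sum (s := I) (f := fun i => ((range q).filter
        (fun s : ℕ => (q : ℤ) ∣ (c i * V1 + m i) + (c i * GG D) * s)).card)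
        (g := fun _ => 1) (fun i hi => one_root q hq _ _ (hB i hi))
  rw [Finset.sum_const, smul_eq_mul, mul_one] at h1
  exact h1.trans hI

/-- length of a block -/
def WW (D n : ℕ) : ℕ := 2 ^ ((8 * D + 7) * 2 ^ n)

theorem WW_pos (D n : ℕ) : 0 < WW D n := by unfold WW; positivity

theorem gen_block (hD : 0 < D) (n0 : ℕ) (hS : SieveBound D n0) (n : ℕ) (hn : n0 ≤ n)
    (hI : I.card ≤ D) (hc : ∀ i ∈ I, c i ≠ 0 ∧ |c i| ≤ D) (L : ℕ) (lo : ℤ) :
    ∃ S : Finset ℤ, (L : ℝ) * WW D n ≤ 2 ^ ((2 * D + 1) * n) * (S.card : ℝ) ∧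
      ∀ V ∈ S, lo ≤ V ∧ V ≤ lo + GG D + GG D * WW D n * L ∧ SmallG D I c m V ∧
        MedG D I c m (2 ^ (2 ^ n)) V := by
  classical
  obtain ⟨V0, hV0⟩ := exists_smallG D I c m hD hI hc
  set z : ℕ := 2 ^ (2 ^ n) with hz
  set W := WW D n with hW
  have hWpos : 0 < W := WW_pos D n
  have hGpos := GG_pos D
  set G : ℕ := GG D with hG
  have hGz : (0 : ℤ) < G := by exact_mod_cast hGpos
  set Vs : ℤ := lo + (V0 - lo) % G with hVs
  have hVs1 : lo ≤ Vs := by
    have := Int.emod_nonneg (V0 - lo) hGz.ne'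
    omega
  have hVs2 : Vs < lo + G := by
    have := Int.emod_lt_of_pos (V0 - lo) hGz
    omega
  have hVs3 : (G : ℤ) ∣ Vs - V0 := by
    have := Int.emod_add_mul_ediv (V0 - lo) G
    refine ⟨-((V0 - lo) / G), ?_⟩
    rw [hVs]
    linear_combination this
  -- the sifted sets
  set V1 : ℕ → ℤ := fun m => Vs + G * W * m with hV1
  set S : Finset (Σ _ : ℕ, ℕ) := (range L).sigma
    (fun j => sifted D (badG D I c m (V1 j)) n) with hSdef
  have hcardS : (L : ℝ) * W ≤ 2 ^ ((2 * D + 1) * n) * (S.card : ℝ) := by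
    rw [hSdef, Finset.card_sigma]
    push_cast
    rw [Finset.mul_sum]
    have h1 : ∀ j ∈ range L, (W : ℝ) ≤ 2 ^ ((2 * D + 1) * n) *
        ((sifted D (badG D I c m (V1 j)) n).card : ℝ) := by
      intro j _
      have h2 := hS n hn (badG D I c m (V1 j)) (per_badG _ _ _ _ _)
        (fun q hq h100 _ => nb_badG _ _ _ _ hI hc _ q hq h100)
      have e1 : ((W : ℕ) : ℝ) = (2 : ℝ) ^ ((8 * D + 7) * 2 ^ n) := by
        rw [hW]; unfold WW; push_cast; rfl
      rw [e1]
      exact h2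
    have h3 := Finset.sum_le_sum h1
    rw [Finset.sum_const, card_range, nsmul_eq_mul] at h3
    exact h3
  set F : (Σ _ : ℕ, ℕ) → ℤ := fun p => Vs + G * ((W : ℤ) * p.1 + p.2) with hF
  refine ⟨S.image F, ?_, ?_⟩
  · rw [Finset.card_image_of_injOn]
    · exact hcardS
    · rintro ⟨j, s⟩ hp ⟨j', s'⟩ hp' heq
      rw [Finset.mem_coe, hSdef, Finset.mem_sigma, QuadThree.mem_sifted] at hp hp'
      have hs : s < W := hp.2.1
      have hs' : s' < W := hp'.2.1
      rw [hF] at heq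
      simp only at heq
      have h2 : ((G : ℤ) * ((W : ℤ) * j + s)) = ((G : ℤ) * ((W : ℤ) * j' + s')) := by
        linarith
      have h3 := mul_left_cancel₀ hGz.ne' h2
      have h4 : W * j + s = W * j' + s' := by exact_mod_cast h3
      have h5 : j = j' := by
        have a1 : (W * j + s) / W = j := by
          rw [Nat.mul_add_div hWpos, Nat.div_eq_of_lt hs, add_zero]
        have a2 : (W * j' + s') / W = j' := by
          rw [Nat.mul_add_div hWpos, Nat.div_eq_of_lt hs', add_zero]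
        rw [← a1, ← a2, h4]
      subst h5
      have h6 : s = s' := by omega
      rw [h6]
  · intro V hV
    obtain ⟨⟨j, s⟩, hp, rfl⟩ := Finset.mem_image.1 hV
    rw [hSdef, Finset.mem_sigma, QuadThree.mem_sifted] at hp
    obtain ⟨hm, hs, hq⟩ := hp
    simp only at hm hs hq
    rw [mem_range] at hm
    have hs' : s < W := hs
    have e : Vs + G * ((W : ℤ) * j + s) = V1 j + G * s := by rw [hV1]; ring
    have hub : (W : ℤ) * j + s + 1 ≤ W * L := by
      have h1 : (j : ℤ) + 1 ≤ L := by exact_mod_cast hm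
      have h2 : (s : ℤ) + 1 ≤ W := by exact_mod_cast hs'
      have h3 : (0 : ℤ) < W := by exact_mod_cast hWpos
      nlinarith
    have hnn : (0 : ℤ) ≤ (W : ℤ) * j + s := by positivity
    have hub2 : (G : ℤ) * ((W : ℤ) * j + s) + G ≤ G * W * L := by nlinarith
    have hnn2 : (0 : ℤ) ≤ G * ((W : ℤ) * j + s) := by positivity
    rw [hF]
    simp only
    refine ⟨by linarith, by linarith, ?_, ?_⟩
    · apply hV0.congr
      have h1 : Vs + G * ((W : ℤ) * j + s) - V0 = (Vs - V0) + G * ((W : ℤ) * j + s) := by ring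
      rw [h1]
      exact dvd_add hVs3 (Dvd.intro _ rfl)
    · intro q hqp h100 hqz i hi hd
      rw [e] at hd
      exact hq q hqp h100 hqz ⟨i, hi, hd⟩

end Gen

theorem WW_succ (D n : ℕ) : WW D (n + 1) = (2 ^ (2 ^ n)) ^ (16 * D + 14) := by
  unfold WW
  rw [← pow_mul]
  congr 1
  rw [pow_succ]
  ring

theorem WW_strict (D n : ℕ) : n < WW D n := by
  unfold WW
  calc n < 2 ^ n := Nat.lt_two_pow_self
    _ ≤ (8 * D + 7) * 2 ^ n := Nat.le_mul_of_pos_left _ (by omega)
    _ < 2 ^ ((8 * D + 7) * 2 ^ n) := Nat.lt_two_pow_self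

/-- the choice of `n` -/
theorem choose_n (D K n0 : ℕ) (hK : 0 < K) (N : ℕ) (hN : K * WW D (n0 + K) ≤ N) :
    ∃ n : ℕ, n0 + K ≤ n ∧ K * WW D n ≤ N ∧ N < (2 ^ (2 ^ n)) ^ (16 * D + 15) := by
  classical
  have hex : ∃ m : ℕ, N < K * WW D m := by
    refine ⟨N, ?_⟩
    calc N < WW D N := WW_strict D N
      _ ≤ K * WW D N := Nat.le_mul_of_pos_left _ hK
  set m := Nat.find hex with hm
  have hm1 : N < K * WW D m := Nat.find_spec hex
  have hmono : ∀ i j : ℕ, i ≤ j → WW D i ≤ WW D j := by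
    intro i j hij
    unfold WW
    apply Nat.pow_le_pow_right (by norm_num)
    apply Nat.mul_le_mul_left
    exact Nat.pow_le_pow_right (by norm_num) hij
  have hm2 : n0 + K < m := by
    by_contra hcon
    push Not at hcon
    have h1 := Nat.mul_le_mul_left K (hmono _ _ hcon)
    omega
  obtain ⟨n, hn⟩ : ∃ n, m = n + 1 := ⟨m - 1, by omega⟩
  have hn1 : K * WW D n ≤ N := by
    by_contra hcon
    push Not at hcon
    have := Nat.find_min' hex hcon
    omega
  refine ⟨n, by omega, hn1, ?_⟩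
  rw [hn, WW_succ] at hm1
  refine lt_of_lt_of_le hm1 ?_
  have hKz : K ≤ 2 ^ (2 ^ n) := by
    calc K ≤ n := by omega
      _ ≤ 2 ^ n := Nat.lt_two_pow_self.le
      _ ≤ 2 ^ (2 ^ n) := Nat.lt_two_pow_self.le
  calc K * (2 ^ (2 ^ n)) ^ (16 * D + 14) ≤ (2 ^ (2 ^ n)) * (2 ^ (2 ^ n)) ^ (16 * D + 14) :=
        Nat.mul_le_mul_right _ hKz
    _ = (2 ^ (2 ^ n)) ^ (16 * D + 15) := by rw [pow_succ]; ring

/-- **Simultaneously rough linear forms.** For all `D, κ ≥ 1` and all large `N` there is `z ≥ 2`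
with `N < z ^ (16 D + 15)` such that any at most `D` forms `c i V + m i`, `0 < |c i| ≤ D`, are
simultaneously rough for at least `κ N / (log N) ^ (2 D + 2)` of the integers `V` in any given
interval `[lo, lo + N / κ]`. -/
theorem rough_forms (D κ : ℕ) (hD : 0 < D) (hκ : 0 < κ) : ∃ N0 : ℕ, ∀ N : ℕ, N0 ≤ N →
    ∃ z : ℕ, 2 ≤ z ∧ N < z ^ (16 * D + 15) ∧
    ∀ (ι : Type) (I : Finset ι) (c m : ι → ℤ), I.card ≤ D →
      (∀ i ∈ I, c i ≠ 0 ∧ |c i| ≤ D) → ∀ lo : ℤ,
      ∃ S : Finset ℤ, (κ : ℝ) * N ≤ (Real.log N) ^ (2 * D + 2) * (S.card : ℝ) ∧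
        ∀ V ∈ S, lo ≤ V ∧ κ * V ≤ κ * lo + N ∧ SmallG D I c m V ∧ MedG D I c m z V := by
  obtain ⟨n0, hS⟩ := sieve_asym D
  have hG := GG_pos D
  set G : ℕ := GG D with hGdef
  obtain ⟨K, hK⟩ : ∃ K : ℕ, K = 4 * κ * G := ⟨_, rfl⟩
  have hKpos : 0 < K := by rw [hK]; positivity
  obtain ⟨E, hE⟩ : ∃ E : ℕ, Real.exp (κ * (4 * κ * G)) ≤ E := exists_nat_ge _
  refine ⟨K * WW D (n0 + K) + E, ?_⟩
  intro N hN
  obtain ⟨n, hn, hn1, hn2⟩ := choose_n D K n0 hKpos N (by omega)
  set z : ℕ := 2 ^ (2 ^ n) with hz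
  set W := WW D n with hW
  have hWpos : 0 < W := WW_pos D n
  have hnW : n < W := WW_strict D n
  obtain ⟨L, hL⟩ : ∃ L : ℕ, L = N / (2 * κ * G * W) := ⟨_, rfl⟩
  have hDD : 0 < 2 * κ * G * W := by positivity
  have hL1 : 2 * κ * G * W * L ≤ N := by rw [hL]; exact Nat.mul_div_le _ _
  have hL2 : N < 2 * κ * G * W * (L + 1) := by
    rw [hL]; exact Nat.lt_mul_div_succ _ hDD
  have hL3 : 1 ≤ L := by
    by_contra hcon
    have h1 : L + 1 ≤ 1 := by omega
    have h2 : 2 * κ * G * W * (L + 1) ≤ 2 * κ * G * W * 1 := Nat.mul_le_mul_left _ h1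
    have h3 : 2 * κ * G * W * 1 ≤ 4 * κ * G * W := by nlinarith
    rw [hK] at hn1
    omega
  have hbig : 2 * κ * G ≤ N := by
    have h1 : K * 1 ≤ K * W := Nat.mul_le_mul_left _ (by omega)
    rw [hK] at h1 hn1
    nlinarith
  have hz2 : 2 ≤ z := by
    rw [hz]
    calc 2 = 2 ^ 1 := by norm_num
      _ ≤ 2 ^ (2 ^ n) := Nat.pow_le_pow_right (by norm_num) Nat.one_le_two_pow
  refine ⟨z, hz2, hn2, ?_⟩
  intro ι I c m hI hc lo
  obtain ⟨S, hS1, hS2⟩ := gen_block D I c m hD n0 hS n (by omega) hI hc L lo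
  refine ⟨S, ?_, ?_⟩
  · set x : ℝ := (S.card : ℝ) with hx
    have hx0 : 0 ≤ x := by rw [hx]; positivity
    have hNpos : (0 : ℝ) < N := by
      have h0 : 0 < 2 * κ * G := by positivity
      have : 0 < N := by omega
      exact_mod_cast this
    -- log N ≥ 2^n
    have hlog1 : (2 : ℝ) ^ n ≤ Real.log N := by
      have h1 : W ≤ N := by
        calc W ≤ K * W := Nat.le_mul_of_pos_left _ hKpos
          _ ≤ N := hn1
      have h2 : Real.log W ≤ Real.log N := by
        apply Real.log_le_log (by exact_mod_cast hWpos)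
        exact_mod_cast h1
      have h3 : Real.log W = ((8 * D + 7) * 2 ^ n : ℕ) * Real.log 2 := by
        rw [hW]; unfold WW
        push_cast
        rw [Real.log_pow]
        push_cast
        ring
      have h4 : (0.6931471803 : ℝ) < Real.log 2 := Real.log_two_gt_d9
      rw [h3] at h2
      push_cast at h2
      have h5 : (0 : ℝ) < 2 ^ n := by positivity
      have h6 : (0 : ℝ) ≤ D := by positivity
      have h7 : (0 : ℝ) ≤ D * 2 ^ n := by positivity
      have h8 : (7 : ℝ) * 2 ^ n * 0.69 ≤ (8 * D + 7) * 2 ^ n * Real.log 2 := by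
        have h9 : (7 : ℝ) * 2 ^ n ≤ (8 * D + 7) * 2 ^ n := by nlinarith
        have h10 : (0 : ℝ) ≤ (8 * D + 7) * 2 ^ n := by positivity
        nlinarith
      linarith
    have hlog2 : (κ * (4 * κ * G) : ℝ) ≤ Real.log N := by
      have h1 : (E : ℝ) ≤ N := by
        have : E ≤ N := by omega
        exact_mod_cast this
      have h2 : Real.exp (κ * (4 * κ * G)) ≤ N := hE.trans h1
      rw [← Real.log_exp ((κ : ℝ) * (4 * κ * G))]
      exact Real.log_le_log (Real.exp_pos _) h2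
    have hlog0 : (0 : ℝ) ≤ Real.log N := le_trans (by positivity) hlog1
    have h1 : (N : ℝ) ≤ 4 * κ * G * (L * W) := by
      have h2 : 2 * κ * G * W * (L + 1) ≤ 2 * κ * G * W * (2 * L) :=
        Nat.mul_le_mul_left _ (by omega)
      have h3 : N ≤ 4 * κ * G * (L * W) := by
        calc N ≤ 2 * κ * G * W * (2 * L) := by omega
          _ = 4 * κ * G * (L * W) := by ring
      exact_mod_cast h3
    have h2 : (2 : ℝ) ^ ((2 * D + 1) * n) ≤ (Real.log N) ^ (2 * D + 1) := by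
      rw [mul_comm (2 * D + 1) n, pow_mul]
      exact pow_le_pow_left₀ (by positivity) hlog1 _
    have e : (Real.log N) ^ (2 * D + 2) = (Real.log N) ^ (2 * D + 1) * Real.log N :=
      pow_succ _ _
    have hy0 : 0 ≤ (Real.log N) ^ (2 * D + 1) := pow_nonneg hlog0 _
    rw [e]
    calc (κ : ℝ) * (N : ℝ) ≤ κ * (4 * κ * G * (L * W)) :=
          mul_le_mul_of_nonneg_left h1 (by positivity)
      _ = κ * (4 * κ * G) * (L * W) := by ring
      _ ≤ κ * (4 * κ * G) * (2 ^ ((2 * D + 1) * n) * x) :=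
          mul_le_mul_of_nonneg_left hS1 (by positivity)
      _ ≤ κ * (4 * κ * G) * ((Real.log N) ^ (2 * D + 1) * x) := by
          apply mul_le_mul_of_nonneg_left _ (by positivity)
          exact mul_le_mul_of_nonneg_right h2 hx0
      _ ≤ Real.log N * ((Real.log N) ^ (2 * D + 1) * x) :=
          mul_le_mul_of_nonneg_right hlog2 (mul_nonneg hy0 hx0)
      _ = (Real.log N) ^ (2 * D + 1) * Real.log N * x := by
          generalize (Real.log N) ^ (2 * D + 1) = y
          ring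
  · intro V hV
    obtain ⟨g1, g2, g3, g4⟩ := hS2 V hV
    refine ⟨g1, ?_, g3, g4⟩
    have h1 : (2 * κ * G * W * L : ℤ) ≤ N := by exact_mod_cast hL1
    have h2 : (2 * κ * G : ℤ) ≤ N := by exact_mod_cast hbig
    have h5 : (κ : ℤ) * V ≤ κ * (lo + G + G * W * L) := by
      apply mul_le_mul_of_nonneg_left _ (by positivity)
      exact g2
    have h6 : (κ : ℤ) * (lo + G + G * W * L) = κ * lo + κ * G + κ * G * W * L := by ring
    have h7 : (2 * κ * G * W * L : ℤ) = 2 * (κ * G * W * L) := by ring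
    have h8 : (2 * κ * G : ℤ) = 2 * (κ * G) := by ring
    rw [h7] at h1
    rw [h8] at h2
    rw [h6] at h5
    linarith

/-- roughness of a natural number: prime factors `≤ D` or `> z`, boundedly many -/
theorem rough_num {D z N n : ℕ} (hz : 2 ≤ z) (hN : N < z ^ (16 * D + 15)) (hn0 : n ≠ 0)
    (hn : n ≤ N)
    (h1 : ∀ p : ℕ, p.Prime → p ≤ D → ¬ (p : ℤ) ^ (2 * D) ∣ (n : ℤ))
    (h2 : ∀ q : ℕ, q.Prime → D < q → q ≤ z → ¬ (q : ℤ) ∣ (n : ℤ)) :
    (∀ p : ℕ, p.Prime → p ∣ n → p ≤ D ∨ z < p) ∧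
      ArithmeticFunction.cardFactors n ≤ D * (2 * D) + (16 * D + 15) := by
  constructor
  · intro p hp hd
    by_contra hcon
    push Not at hcon
    exact h2 p hp hcon.1 hcon.2 (by exact_mod_cast hd)
  · obtain ⟨m, hm1, hm2⟩ := rough_bound' n z D (2 * D) hn0 (by
      intro p hp hp1 hd
      apply h1 p hp hp1
      exact_mod_cast hd) (by
      intro p hp hp1 hd
      by_contra hcon
      push Not at hcon
      exact h2 p hp hp1 hcon.le (by exact_mod_cast hd))
    have h3 : z ^ m < z ^ (16 * D + 15) := lt_of_le_of_lt hm2 (lt_of_le_of_lt hn hN)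
    have h4 : m < 16 * D + 15 := (Nat.pow_lt_pow_iff_right (by omega)).1 h3
    omega

end Pool.Agent.Lib.RoughForms
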